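import Pool.Agent.H326.KQ.I
import Pool.Agent.H326.KQ.D
import Pool.Agent.H573.AHB.DnB

/-!
# MP_ef6a16_nt: the first case of Fermat's equation with two square terms, imaginary quadratic fields

Let `K` be an imaginary quadratic field. `Excluded K N s G` says: all solutions of
`a^N + b^N = c^N` in nonzero elements of `𝓞 K` such that `N` is even or `b c` is a square, and such
that `a` is prime to `2` or `K` has only one prime ideal above `2`, have `a b c` not prime to `s`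
and divisible by all `q ∈ G`.

(1) There are `δ > 0` and a set `S` of primes of positive logarithmic proportion (the sum of `1/s`
over `s ∈ S ∩ [X^{5/8}, X]` is bounded below) such that each `s ∈ S` has a set `G` of at least
`s^δ` primes `q ≡ 1 (mod s)` with `Excluded K N s G` for all multiples `N` of `s`.
(2) For every `η > 0` there is `κ > 0` such that all but at most `η X` integers `N ≤ X` have a
prime factor `s ≥ N^κ` with `Excluded K N s ∅`, for all large `X`.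
-/

namespace Pool.Agent.Results.MP_ef6a16_nt.FirstCaseTwoSquares

open NumberField Pool.Agent.H573.AHB Pool.Agent.H326.KQ

/-- `K` has only one prime ideal above `2` -/
def TwoNotSplit (K : Type) [Field K] [NumberField K] : Prop :=
  ∀ P Q : Ideal (𝓞 K), P.IsPrime → Q.IsPrime → (2 : 𝓞 K) ∈ P → (2 : 𝓞 K) ∈ Q → P = Q

/-- all solutions of `a^N + b^N = c^N` in nonzero integers of `K`, with `N` even or `b c` a square,
and with `a` prime to `2` or `2` not split in `K`, have `a b c` not prime to `s`, and divisible by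
all `q ∈ G` -/
def Excluded (K : Type) [Field K] [NumberField K] (N s : ℕ) (G : Finset ℕ) : Prop :=
  ∀ a b c : 𝓞 K, a ≠ 0 → b ≠ 0 → c ≠ 0 → a ^ N + b ^ N = c ^ N →
    (Even N ∨ IsSquare (b * c)) → (IsCoprime a 2 ∨ TwoNotSplit K) →
    ¬ IsCoprime (s : 𝓞 K) (a * b * c) ∧ ∀ q ∈ G, (q : 𝓞 K) ∣ a * b * c

theorem result (K : Type) [Field K] [NumberField K] (hK : Module.finrank ℚ K = 2)
    (hC : IsTotallyComplex K) :
    (∃ δ : ℝ, 0 < δ ∧ ∃ S : Set ℕ, (∀ s ∈ S, s.Prime) ∧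
      (∃ c : ℝ, 0 < c ∧ ∃ X₀ : ℕ, ∀ X : ℕ, X₀ ≤ X →
        c ≤ ∑ᶠ s ∈ {s : ℕ | s ∈ S ∧ (X : ℝ) ^ (5 / 8 : ℝ) ≤ s ∧ s ≤ X}, (1 : ℝ) / s) ∧
      ∀ s ∈ S, ∃ G : Finset ℕ, (s : ℝ) ^ δ ≤ (G.card : ℝ) ∧ (∀ q ∈ G, q.Prime ∧ s ∣ q - 1) ∧
        ∀ N : ℕ, s ∣ N → Excluded K N s G) ∧
    (∀ η : ℝ, 0 < η → ∃ κ : ℝ, 0 < κ ∧ ∃ X₁ : ℕ, ∀ X : ℕ, X₁ ≤ X →
      (Set.ncard {N : ℕ | N ≤ X ∧ ¬ ∃ s : ℕ, s.Prime ∧ s ∣ N ∧ (N : ℝ) ^ κ ≤ s ∧
        Excluded K N s ∅} : ℝ) ≤ η * X) := by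
  classical
  obtain ⟨f0, hf0, hhom⟩ := exists_hom hK
  have hdisc : discr K ≠ 0 := discr_ne_zero K
  have hdisc1 : 1 ≤ (discr K).natAbs := Int.natAbs_pos.mpr hdisc
  obtain ⟨δ, hδ0, hδ1, S, hS, hdens⟩ := diagV (f0 * (discr K).natAbs)
    (Nat.one_le_iff_ne_zero.mpr (Nat.mul_ne_zero (by omega) (by omega))) _ usparse_WF
    (5 + classNumber K)
  have hh0 : 0 < classNumber K := classNumber_pos K
  have main : ∀ s ∈ S, ∃ G : Finset ℕ, (s : ℝ) ^ δ ≤ (G.card : ℝ) ∧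
      (∀ q ∈ G, q.Prime ∧ s ∣ q - 1) ∧ ∀ N : ℕ, s ∣ N → Excluded K N s G := by
    intro s hs
    obtain ⟨hsp, hs2, G, hG1, hG2⟩ := hS s hs
    have hs5 : 5 < s := by omega
    have hsh : ¬ s ∣ classNumber K := fun h => by
      have := Nat.le_of_dvd hh0 h
      omega
    have hs1 : (1 : ℝ) ≤ s := by exact_mod_cast (by omega : 1 ≤ s)
    have hG3 : ∀ q ∈ G, q.Prime ∧ f0 ∣ q - 1 ∧ ¬ (q : ℤ) ∣ discr K ∧ s ∣ q - 1 ∧
        ¬ WF q ((q - 1) / s) := by
      intro q hq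
      obtain ⟨k1, k2, k3, k4⟩ := hG2 q hq
      have hq2 := k1.two_le
      refine ⟨k1, (Dvd.intro _ rfl).trans k2, ?_, k3, ?_⟩
      · intro h
        have h1 : q ∣ (discr K).natAbs := Int.natCast_dvd.mp h
        have h2 : q ∣ q - 1 := (h1.trans (Dvd.intro_left _ rfl)).trans k2
        have := Nat.le_of_dvd (by omega) h2
        omega
      · refine k4 0 ?_
        rw [Nat.cast_zero]
        exact Real.rpow_nonneg (by linarith) _
    refine ⟨G, hG1, fun q hq => ⟨(hG3 q hq).1, (hG3 q hq).2.2.2.1⟩, ?_⟩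
    rintro N ⟨N', rfl⟩ a b c ha hb hc heq hsq h2
    have hN0 : N' ≠ 0 := by
      rintro rfl
      rw [mul_zero, pow_zero, pow_zero, pow_zero] at heq
      exact one_ne_zero (add_eq_left.mp heq)
    have hso : ¬ Even s := Nat.not_even_iff_odd.mpr (hsp.odd_of_ne_two (by omega))
    obtain ⟨w, hw⟩ : ∃ w : 𝓞 K, b ^ N' * c ^ N' = w * w := by
      rcases hsq with h | ⟨w, hw⟩
      · obtain ⟨k, hk⟩ := (Nat.even_mul.mp h).resolve_left hso
        exact ⟨(b * c) ^ k, by rw [← mul_pow, hk, pow_add]⟩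
      · exact ⟨w ^ N', by rw [← mul_pow, hw, mul_pow]⟩
    have heq' : (a ^ N') ^ s + (b ^ N') ^ s = (c ^ N') ^ s := by
      rw [← pow_mul, ← pow_mul, ← pow_mul, mul_comm N']
      exact heq
    have h2' : IsCoprime (a ^ N') 2 ∨ OneTwo K := by
      rcases h2 with h | h
      · exact Or.inl h.pow_left
      · exact Or.inr h
    have ha' := pow_ne_zero N' ha
    have hb' := pow_ne_zero N' hb
    have hc' := pow_ne_zero N' hc
    -- an element of `G` and a prime ideal above it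
    have hGne : G.Nonempty := by
      rw [← Finset.card_pos]
      have h1 : (0 : ℝ) < (s : ℝ) ^ δ := by
        apply Real.rpow_pos_of_pos
        linarith
      have h2 : (0 : ℝ) < (G.card : ℝ) := lt_of_lt_of_le h1 hG1
      exact_mod_cast h2
    obtain ⟨q0, hq0⟩ := hGne
    constructor
    · intro hcop
      obtain ⟨k1, k3, k4, k5, k6⟩ := hG3 q0 hq0
      have hne : Ideal.span {(q0 : 𝓞 K)} ≠ ⊤ := by
        intro h
        rw [Ideal.span_singleton_eq_top] at h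
        have h1 : IsUnit (Algebra.norm ℤ (q0 : 𝓞 K)) := h.map _
        rw [norm_nat hK, Int.isUnit_iff] at h1
        have h2 : (2 : ℤ) ≤ q0 := by exact_mod_cast k1.two_le
        rcases h1 with h1 | h1
        · nlinarith
        · nlinarith
      obtain ⟨P, hP1, hP2⟩ := Ideal.exists_le_maximal _ hne
      obtain ⟨ψ, hψ⟩ := hhom q0 k1 k3 P hP1.isPrime (hP2 (Ideal.mem_span_singleton_self _))
      have hcop' : IsCoprime (s : 𝓞 K) (a ^ N' * b ^ N' * c ^ N') := by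
        rw [← mul_pow, ← mul_pow]
        exact hcop.pow_right
      exact no_first hK hC hsp (by omega) hsh k1 k5 k6 P ψ hψ hP1.isPrime (a ^ N') (b ^ N')
        (c ^ N') w ha' hb' hc' hw hcop' h2' heq'
    · intro q hq
      obtain ⟨k1, k3, k4, k5, k6⟩ := hG3 q hq
      have hF : Fact q.Prime := ⟨k1⟩
      apply dvd_of_mem k1 k4
      intro P hP hqP
      obtain ⟨ψ, hψ⟩ := hhom q k1 k3 P hP hqP
      have h1 := aux_dvd hK hC hsp (by omega) hsh k1 k5 k6 P ψ hψ (a ^ N') (b ^ N')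
        (c ^ N') w ha' hb' hc' hw h2' heq'
      rw [← mul_pow, ← mul_pow, map_pow] at h1
      rw [← hψ]
      exact (RingHom.mem_ker).mpr ((pow_eq_zero_iff hN0).mp h1)
  refine ⟨⟨δ, hδ0, S, fun s hs => (hS s hs).1, hdens, main⟩, ?_⟩
  refine almost_all_of S (fun s hs => (hS s hs).1) hdens
    (fun z N => ∃ s : ℕ, s.Prime ∧ s ∣ N ∧ z ≤ s ∧ Excluded K N s ∅) δ hδ0 0 ?_ ?_
  · intro s hs _ N hsN
    obtain ⟨G, -, -, h3⟩ := main s hs
    obtain ⟨hsp, hs2, -⟩ := hS s hs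
    have hs1 : (1 : ℝ) ≤ s := by exact_mod_cast (by omega : 1 ≤ s)
    refine ⟨s, hsp, hsN, ?_, ?_⟩
    · calc (s : ℝ) ^ δ ≤ (s : ℝ) ^ (1 : ℝ) :=
            Real.rpow_le_rpow_of_exponent_le hs1 (by linarith)
        _ = s := Real.rpow_one _
    · intro a b c ha hb hc heq hsq h2
      exact ⟨(h3 N hsN a b c ha hb hc heq hsq h2).1, fun q hq => absurd hq (Finset.notMem_empty q)⟩
  · rintro z z' N hz ⟨s, h1, h2, h3, h4⟩
    exact ⟨s, h1, h2, hz.trans h3, h4⟩

end Pool.Agent.Results.MP_ef6a16_nt.FirstCaseTwoSquares
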