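import Pool.Agent.H577.GS.StepF

set_option autoImplicit false

/-!
# Asymptotic Fermat over number fields holds on every fixed plane curve

Let `K` be a number field and `G ≠ 0` a homogeneous polynomial in three variables over `K`. We show
that there is a bound `B`, depending on `K` and `G`, such that for all primes `p > B` the curve
`G = 0` contains no point `(a : b : c)` with `a, b, c ≠ 0` of the Fermat curve
`x ^ p + y ^ p + z ^ p = 0` over `K`, except for the points `(1 : ω : ω ^ 2)` and
`(1 : ω ^ 2 : ω)`, `ω` a primitive cube root of unity. In particular there is no such point if `K`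
does not contain `ω`. In other words: if asymptotic Fermat fails over a field without `ω`, then every
infinite set of nontrivial solutions with different prime exponents is Zariski dense in the
projective plane; the solutions are generic.

Proof. Put `u = a + b`, `v = b + c`, `w = c + a`. If a prime `q` of `K` divides `u` (where `a, b, c`
are scaled to be integral at `q` and not all divisible by `q`), then `q` divides `c` and
`c ^ p = - u (a ^ p + b ^ p) / (a + b)` shows that `u` is divisible by `c ^ (p - 1)`; so the point is
`q`-adically too near to `(1 : -1 : 0)`, in the direction of the line `a + b = 0`, to lie on the curve,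
unless `q` belongs to a finite set `S` which depends on `G` only. Hence `u / w` and `v / w` are
`S`-units. By the theorem on vanishing sums of `S`-units (from the subspace theorem) they satisfy one
of finitely many equations `(u / w) ^ k (v / w) ^ l = ρ`. If none of the three exponents of `u, v, w`
is zero, we may assume that `k, l > 0`. Then the equation shows that `u / w` and `v / w` are
`o(p)` at all infinite places and bounded at the finite places; but `2 (a + b + c) / w` is divisible
by `p`, so that `a + b + c = 0` for large `p`. In the other cases we may assume that `v / w = κ`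
is constant. Then `2 (a + b + c) / w = p m`, where `m` belongs to a finite set, and for
`p → ∞` the equation of Fermat becomes `exp (2 / m) + exp (2 κ / m) = 1`. This contradicts the theorem of
Lindemann and Weierstrass, so again `a + b + c = 0`. Finally, if `a + b + c = 0`, the unit equation
shows that `a / c` and `b / c` are roots of unity.
-/

namespace Pool.Agent.Results.MP_ef6a16_nt.FixedCurves

open Pool.Agent.H577.GS Filter

/-- **Asymptotic Fermat on a fixed curve.** Let `K` be a number field and `G` a nonzero homogeneous
polynomial in three variables over `K`. For all large primes `p` every solution of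
`a ^ p + b ^ p + c ^ p = 0` in nonzero elements of `K` with `G(a, b, c) = 0` is proportional to
`(1, ω, ω ^ 2)` or `(1, ω ^ 2, ω)`, where `ω` is a primitive cube root of unity in `K`. -/
theorem result (K : Type) [Field K] [NumberField K] (G : MvPolynomial (Fin 3) K) (D : ℕ)
    (hG : G.IsHomogeneous D) (hG0 : G ≠ 0) :
    ∃ B : ℕ, ∀ p : ℕ, p.Prime → B < p → ∀ a b c : K, a ≠ 0 → b ≠ 0 → c ≠ 0 →
      a ^ p + b ^ p + c ^ p = 0 → MvPolynomial.eval ![a, b, c] G = 0 →
      ∃ ω : K, ω ^ 2 + ω + 1 = 0 ∧ b = ω * a ∧ c = ω ^ 2 * a := by
  obtain ⟨S, hS, h1⟩ := curve_sum G D hG hG0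
  obtain ⟨B, hB⟩ := eventually_atTop.1 (h1.and (sum_zero S hS))
  refine ⟨B, fun p hp hpB a b c ha hb hc h hz => ?_⟩
  obtain ⟨h2, h3⟩ := hB p hpB.le
  obtain ⟨h4, h5⟩ := h2 hp a b c ⟨ha, hb, hc, h⟩ hz
  have h6 := h3 hp a b c ⟨ha, hb, hc, h⟩ h4 h5
  refine ⟨b / a, ?_, ?_, ?_⟩
  · field_simp
    linear_combination h6
  · field_simp
  · field_simp
    linear_combination a * h5 - h6

end Pool.Agent.Results.MP_ef6a16_nt.FixedCurves
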