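import Pool.Agent.H577.CP.Main

set_option autoImplicit false

/-!
# Fermat's equation over imaginary quadratic fields: solutions have heights `(p / 3) ^ (2 p)`

Let `K` be an imaginary quadratic field and `p ≥ 5` a prime which is unramified in `K` and does
not divide the class number of `K` (for a fixed `K` this excludes finitely many `p`). Let
`a ^ p + b ^ p + c ^ p = 0` with `a, b, c ≠ 0` in `K`, and suppose that this is not a trivial
solution `(1 : w : w ^ 2)`, `w ^ 2 + w + 1 = 0`. Then the height of `(a : b : c)` over `K` is at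
least `(p ^ 2 / 9) ^ p / 4`, unless `p` splits in `K` and the two prime ideals above `p` divide
two different coordinates, when it is at least `p ^ (p - 1) / 4`. In particular the first bound
holds for all solutions if `p` is inert, and for all `p` in the first case.

Proof. First case: the three sums of two coordinates are `κ u i ^ p`. By the Frobenius map
`δ = u 0 + u 1 + u 2` is divisible by all primes above `p`, that is by `p`, and so the norm of `δ`
is at least `p ^ 2` (relative to the content of `u`), if `δ ≠ 0`. Hence one of the `u i` has norm at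
least `p ^ 2 / 9`, and its sum has norm at least `(p ^ 2 / 9) ^ p`. If `δ = 0` we look at a place above
two, as in `SpecialPrime`. Second case: let the places above `p` at which a coordinate is small
belong to the same coordinate `t i`. The quotient of the two other sums is a `p`-th power `g ^ p`,
`g ^ p ≡ -1` modulo `v`, hence `g ≡ -1` modulo `v` and `g ^ p + 1` is divisible by `v p` and by a
further `v`: `t i` is divisible by `v ^ 2`, and its sum by `v ^ (2 p - 1)`.
-/

namespace Pool.Agent.Results.MP_ef6a16_nt.LargeHeights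

open NumberField Pool.Agent.W7.FH Pool.Agent.H577.UQ Pool.Agent.H577.SQ Pool.Agent.H577.CN
  Pool.Agent.H577.CP Height

theorem result (K : Type) [Field K] [NumberField K] (hK : Module.finrank ℚ K = 2)
    (hC : IsTotallyComplex K) (p : ℕ) (hp : p.Prime) (h5 : 5 ≤ p) (hh : ¬ p ∣ classNumber K)
    -- `p` is unramified in `K`
    (hP : ∀ P : Ideal (𝓞 K), P.IsPrime → (p : 𝓞 K) ∉ P ^ 2)
    (a b c : K) (ha : a ≠ 0) (hb : b ≠ 0) (hc : c ≠ 0) (h : a ^ p + b ^ p + c ^ p = 0) :
    -- the trivial solutions
    (∃ w : K, w ^ 2 + w + 1 = 0 ∧ b = w * a ∧ c = w ^ 2 * a) ∨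
    -- a large height
    ((p : ℝ) ^ 2 / 9) ^ p ≤ 4 * mulHeight ![a, b, c] ∨
    -- the two primes above `p` divide two different coordinates
    ((p : ℝ) ^ (p - 1) ≤ 4 * mulHeight ![a, b, c] ∧
      ∃ (v w : FinitePlace K) (i k : Fin 3), v ≠ w ∧ i ≠ k ∧ v (p : K) < 1 ∧ w (p : K) < 1 ∧
        v (![a, b, c] i) < max (max (v a) (v b)) (v c) ∧
        w (![a, b, c] k) < max (max (w a) (w b)) (w c)) := by
  obtain ⟨σ, τ, s, hE, hcase⟩ := setup K hK
  have hτ : ∀ x, τ x = (starRingEnd ℂ) (σ x) := by
    rcases hcase with ⟨f, g, hf, hg⟩ | ⟨h1, -⟩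
    · exfalso
      have h1 : ComplexEmbedding.IsReal (σ : K →+* ℂ) := by
        rw [ComplexEmbedding.isReal_iff]
        ext x
        change (starRingEnd ℂ) (σ x) = σ x
        rw [← hf x, Complex.conj_ofReal]
      have h2 := hC.isComplex (InfinitePlace.mk (σ : K →+* ℂ))
      rw [← InfinitePlace.not_isReal_iff_isComplex] at h2
      exact h2 ⟨_, h1, rfl⟩
    · exact h1
  have ht : ∀ i, (![a, b, c] : Fin 3 → K) i ≠ 0 := by
    intro i
    fin_cases i
    · exact ha
    · exact hb
    · exact hc
  rcases main hK hE hτ hp h5 hh (unram hp.ne_zero hP) ![a, b, c] ht h with ⟨h1, h2⟩ | h1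
  · left
    change a + b + c = 0 at h1
    change a ^ 2 + a * b + b ^ 2 = 0 at h2
    refine ⟨b / a, ?_, ?_, ?_⟩
    · field_simp
      linear_combination h2
    · field_simp
    · field_simp
      linear_combination a * h1 - h2
  · exact Or.inr h1

end Pool.Agent.Results.MP_ef6a16_nt.LargeHeights
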