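import Pool.Agent.H577.CN.Main

set_option autoImplicit false

/-!
# Fermat's equation over imaginary quadratic fields: a special prime ideal, and large heights

Let `K` be an imaginary quadratic field and `p ≥ 7` a prime which does not divide the class number
of `K` (for a fixed `K` this excludes finitely many `p`). Let `a ^ p + b ^ p + c ^ p = 0` with
`a, b, c ≠ 0` in `K`. Then either the solution is trivial, `(a : b : c) = (1 : w : w ^ 2)` with
`w ^ 2 + w + 1 = 0`, or there is a prime ideal `v` of `K` at which one of the sums `a + b`,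
`b + c`, `c + a` is smaller than `max (|a|, |b|, |c|)`, such that

* either `v` lies above `p` (and `a, b, c` do not have the same absolute value at `v`),
* or `N v` is congruent to `1` modulo `p` and `p` is a `p`-th power modulo `v`.

It follows that the height of `(a : b : c)` over `K` is at least `p ^ (p - 2) / 4`, and at least
`(2 p + 1) ^ p / 4` in the first case. So for a fixed `K` and all large primes `p` there are no
nontrivial solutions of height smaller than `p ^ (p - 2) / 4`.

Proof. Suppose that there is no such `v`. Then the three sums are `κ u i ^ p` with `κ, u i` in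
`K` (`p` is prime to the class number and to the number of units). Let `v` divide `u i`. The
sum of the two other sums is `≡ 2 t i ≡ 0` modulo `v` to the power to which `v` divides `u i`,
and since `x ↦ x ^ p` is injective on the residue field of `v` the sum of the two other `u`'s is
divisible by the same power. Hence `δ = u 0 + u 1 + u 2` is divisible by `u 0`, `u 1`, `u 2`
(suitably normalized), and by the Frobenius map also by the primes above `p`. The product formula
and the triangle inequality give `p r₀ r₁ r₂ ≤ (√r₀ + √r₁ + √r₂) ^ 2` for the norms `r i ≥ 1`,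
unless `δ = 0`. As `p ≥ 7`, `δ = 0` or all `r i = 1`; the second case is elementary. If `δ = 0`
we look at a place above two: no `u i` is divisible by it, its residue field has four elements,
and the expansion of `t₀ ^ p + t₁ ^ p + t₂ ^ p` in powers of `x ^ 2 + x + 1`, `x = u 1 / u 0`, has a
dominating term, so that `x ^ 2 + x + 1 = 0`.
-/

namespace Pool.Agent.Results.MP_ef6a16_nt.SpecialPrime

open NumberField Pool.Agent.W7.FH Pool.Agent.H577.UQ Pool.Agent.H577.SQ Pool.Agent.H577.CN Height

theorem result (K : Type) [Field K] [NumberField K] (hK : Module.finrank ℚ K = 2)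
    (hC : IsTotallyComplex K) (p : ℕ) (hp : p.Prime) (h7 : 7 ≤ p) (hh : ¬ p ∣ classNumber K)
    (a b c : K) (ha : a ≠ 0) (hb : b ≠ 0) (hc : c ≠ 0) (h : a ^ p + b ^ p + c ^ p = 0) :
    -- the trivial solutions
    (∃ w : K, w ^ 2 + w + 1 = 0 ∧ b = w * a ∧ c = w ^ 2 * a) ∨
    -- a special prime ideal
    ((∃ v : FinitePlace K,
        (v (a + b) < max (max (v a) (v b)) (v c) ∨ v (b + c) < max (max (v a) (v b)) (v c) ∨
          v (c + a) < max (max (v a) (v b)) (v c)) ∧
        ((v (p : K) < 1 ∧ ¬ (v a = v b ∧ v b = v c)) ∨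
          (p ∣ Ideal.absNorm v.maximalIdeal.asIdeal - 1 ∧ ∃ w : K, v (w ^ p - p) < 1))) ∧
      -- the height
      (p : ℝ) ^ p ≤ 4 * (p : ℝ) ^ 2 * mulHeight ![a, b, c] ∧
      -- the height in the first case
      ((∀ v : FinitePlace K, v (p : K) < 1 → v a = v b ∧ v b = v c) →
        (2 * (p : ℝ) + 1) ^ p ≤ 4 * mulHeight ![a, b, c])) := by
  obtain ⟨σ, τ, s, hE, hcase⟩ := setup K hK
  have hτ : ∀ x, τ x = (starRingEnd ℂ) (σ x) := by
    rcases hcase with ⟨f, g, hf, hg⟩ | ⟨h1, -⟩
    · exfalso
      have h1 : ComplexEmbedding.IsReal (σ : K →+* ℂ) := by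
        rw [ComplexEmbedding.isReal_iff]
        ext x
        change (starRingEnd ℂ) (σ x) = σ x
        rw [← hf x, Complex.conj_ofReal]
      have h2 := hC.isComplex (InfinitePlace.mk (σ : K →+* ℂ))
      rw [← InfinitePlace.not_isReal_iff_isComplex] at h2
      exact h2 ⟨_, h1, rfl⟩
    · exact h1
  have ht : ∀ i, (![a, b, c] : Fin 3 → K) i ≠ 0 := by
    intro i
    fin_cases i
    · exact ha
    · exact hb
    · exact hc
  set t : Fin 3 → K := ![a, b, c] with htdef
  have hF : (t 0) ^ p + (t 1) ^ p + (t 2) ^ p = 0 := h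
  by_cases hbad : ∀ (v : FinitePlace K) i, v (Sm t i) < mx v (t 0) (t 1) (t 2) →
      v (p : K) = 1 ∧ ¬ (p ∣ nrm v - 1 ∧ ∃ w : K, v (w ^ p - p) < 1)
  · left
    obtain ⟨h1, h2⟩ := first hK hE hτ hp h7 hh t ht hF hbad
    change a + b + c = 0 at h1
    change a ^ 2 + a * b + b ^ 2 = 0 at h2
    refine ⟨b / a, ?_, ?_, ?_⟩
    · field_simp
      linear_combination h2
    · field_simp
    · field_simp
      linear_combination a * h1 - h2
  · right
    push Not at hbad
    obtain ⟨v, i, hlt, hnot⟩ := hbad
    have hv : v (p : K) < 1 ∨ (p ∣ nrm v - 1 ∧ ∃ w : K, v (w ^ p - p) < 1) := by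
      rcases (natCast_le_one v p).lt_or_eq with h1 | h1
      · exact Or.inl h1
      · exact Or.inr (hnot h1)
    have hFi := fermat_cyc t hF i
    have hlt' : v (t (i + 1) + t (i + 2)) < mx v (t (i + 1)) (t (i + 2)) (t i) := by
      rw [mx_cyc]
      exact hlt
    obtain ⟨h1, h2⟩ := height_of_place hK hp (by omega) (ht _) (ht _) (ht _) hFi v hlt'
      (hv.imp id And.left)
    rw [mulHeight_cyc] at h1 h2
    refine ⟨⟨v, ?_, ?_⟩, h1, fun h3 => ?_⟩
    · fin_cases i
      · exact Or.inr (Or.inl hlt)
      · exact Or.inr (Or.inr hlt)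
      · exact Or.inl hlt
    · rcases hv with h3 | h3
      · left
        refine ⟨h3, fun h4 => ?_⟩
        have h5 : v (t (i + 1)) = v (t (i + 2)) ∧ v (t (i + 2)) = v (t i) := by
          have e0 : v (t 0) = v (t 1) := h4.1
          have e1 : v (t 1) = v (t 2) := h4.2
          fin_cases i
          · exact ⟨e1, (e0.trans e1).symm⟩
          · exact ⟨(e0.trans e1).symm, e0⟩
          · exact ⟨e0, e1⟩
        have h6 := (h2 fun _ => h5).1
        exact h3.ne h6
      · exact Or.inr h3
    · refine (h2 fun h4 => ?_).2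
      have h5 := h3 v h4
      have e0 : v (t 0) = v (t 1) := h5.1
      have e1 : v (t 1) = v (t 2) := h5.2
      fin_cases i
      · exact ⟨e1, (e0.trans e1).symm⟩
      · exact ⟨(e0.trans e1).symm, e0⟩
      · exact ⟨e0, e1⟩

end Pool.Agent.Results.MP_ef6a16_nt.SpecialPrime
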